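import Mathlib
import Pool.Agent.W163.CF.Dir6
import Pool.Agent.W163.CF.All
import Pool.Agent.W991.CFTL
import Pool.Agent.W52.CF.ZT

/-!
# Factors of oriented even cycles whose net length is not two

Let `C` be an orientation of a cycle with `k ≥ 4` vertices, `k` even (given by `d : Fin k → Bool`,
where `d i = true` means that the `i`-th edge goes from the `i`-th vertex to the next one) in which the
number of forward edges minus the number of backward edges is neither `2` nor `-2`.
For every `η > 0` every sufficiently large digraph on `n` vertices, `k ∣ n`, in which all in- and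
outdegrees are at least `(1/2 + η) n` has a `C`-factor.
-/

set_option autoImplicit false

namespace Pool.Agent.Results.MP_061df2_co.NetLengthNotTwo

open Pool.Agent.W163.CF

/-- the number of forward minus the number of backward edges has the parity of `k` -/
theorem net_even {k : ℕ} (hk : Even k) (d : Fin k → Bool) : (2 : ℤ) ∣ ∑ i, sgn (d i) := by
  have h1 : ∀ b : Bool, sgn b = 1 - 2 * (if b then 0 else 1) := by
    intro b
    cases b <;> simp [sgn]
  have h2 : ∑ i, sgn (d i) = k - 2 * ∑ i, (if d i then (0 : ℤ) else 1) := by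
    rw [Finset.sum_congr rfl (fun i _ => h1 (d i)), Finset.sum_sub_distrib, ← Finset.mul_sum]
    simp
  rw [h2]
  have h3 : (2 : ℤ) ∣ (k : ℤ) := by exact_mod_cast hk.two_dvd
  exact dvd_sub h3 (dvd_mul_right _ _)

theorem result :
    ∀ k : ℕ, 4 ≤ k → Even k → ∀ d : Fin k → Bool,
      (∑ i : Fin k, if d i then (1 : ℤ) else -1) ≠ 2 →
      (∑ i : Fin k, if d i then (1 : ℤ) else -1) ≠ -2 →
      ∀ η : ℝ, 0 < η →
      ∃ n0 : ℕ, ∀ n : ℕ, n0 ≤ n → k ∣ n →
        ∀ G : Digraph (Fin n),
          (∀ v : Fin n,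
            ((1 : ℝ) / 2 + η) * (n : ℝ) ≤ (({w : Fin n | w ≠ v ∧ G.Adj v w}.ncard : ℕ) : ℝ) ∧
            ((1 : ℝ) / 2 + η) * (n : ℝ) ≤ (({w : Fin n | w ≠ v ∧ G.Adj w v}.ncard : ℕ) : ℝ)) →
          ∃ e : Fin (n / k) × Fin k ≃ Fin n,
            ∀ j : Fin (n / k), ∀ i i' : Fin k,
              i'.val = (i.val + 1) % k →
                (d i = true → G.Adj (e (j, i)) (e (j, i'))) ∧
                (d i = false → G.Adj (e (j, i')) (e (j, i))) := by
  intro k hk hke d hd hd' η hη
  have h1 : (∑ i : Fin k, sgn (d i)) = ∑ i : Fin k, if d i then (1 : ℤ) else -1 :=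
    Finset.sum_congr rfl fun i _ => rfl
  have hFC : FC k d := FC_net_ne2 Pool.Agent.W991.CFTL.t_TL Pool.Agent.W52.CF.t_ZT t_S1 d (net_even hke d)
    (by rw [h1]; exact hd) (by rw [h1]; exact hd')
  obtain ⟨n0, hn0⟩ := t_S11 k d hk hFC η hη
  refine ⟨n0, fun n hn hkn G hG => ?_⟩
  obtain ⟨e, he⟩ := hn0 n hn hkn (RG G) (Big_of G η hG)
  refine ⟨e, fun j i i' hi => ?_⟩
  obtain ⟨h1, h2⟩ := he j i i' hi
  exact ⟨fun h => (h1 h).2, fun h => (h2 h).2⟩

end Pool.Agent.Results.MP_061df2_co.NetLengthNotTwo
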